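import Mathlib

set_option autoImplicit false

/-!
# Compact groups from bounded neighbourhoods (MP_3c1c82)

`U k` (`k : ℕ`) conjugation invariant symmetric sets of a group `G` with `U l * U l ⊆ U k` for some `l = l(k)`, and bounded
cliques for `x⁻¹ y ∉ U k`.  Then `G ^ ℕ` modulo the sequences that are in every `U k` almost everywhere is a compact
Hausdorff group.
-/

namespace Pool.Agent.helper31.CPT

open Filter Topology Pointwise

/-- the neighbourhoods -/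
structure Nbh {G : Type} [Group G] (U : ℕ → Set G) : Prop where
  one : ∀ k, (1 : G) ∈ U k
  anti : ∀ k l, k ≤ l → U l ⊆ U k
  inv : ∀ k, ∀ y ∈ U k, y⁻¹ ∈ U k
  conj : ∀ k, ∀ y ∈ U k, ∀ g, g * y * g⁻¹ ∈ U k
  dbl : ∀ k, ∃ l, ∀ u ∈ U l, ∀ v ∈ U l, u * v ∈ U k
  bdd : ∀ k, ∃ m, ∀ c : Fin m → G, ∃ i j, i ≠ j ∧ (c i)⁻¹ * c j ∈ U k

/-- the same with `U (k + 1) * U (k + 1) ⊆ U k` -/
structure Nbh1 {G : Type} [Group G] (U : ℕ → Set G) : Prop where
  one : ∀ k, (1 : G) ∈ U k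
  anti : ∀ k l, k ≤ l → U l ⊆ U k
  inv : ∀ k, ∀ y ∈ U k, y⁻¹ ∈ U k
  conj : ∀ k, ∀ y ∈ U k, ∀ g, g * y * g⁻¹ ∈ U k
  dbl : ∀ k, ∀ u ∈ U (k + 1), ∀ v ∈ U (k + 1), u * v ∈ U k
  bdd : ∀ k, ∃ m, ∀ c : Fin m → G, ∃ i j, i ≠ j ∧ (c i)⁻¹ * c j ∈ U k

/-- a subsequence -/
theorem Nbh.exists_sub {G : Type} [Group G] {U : ℕ → Set G} (h : Nbh U) :
    ∃ V : ℕ → Set G, Nbh1 V ∧ ∀ x : G, (∀ k, x ∈ V k) ↔ ∀ k, x ∈ U k := by
  choose l hl using h.dbl
  let φ : ℕ → ℕ := fun n => Nat.rec 0 (fun _ m => max (l m) (m + 1)) n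
  have h0 : φ 0 = 0 := rfl
  have hs : ∀ n, φ (n + 1) = max (l (φ n)) (φ n + 1) := fun n => rfl
  have hmono : StrictMono φ := by
    apply strictMono_nat_of_lt_succ
    intro n
    rw [hs]
    exact lt_of_lt_of_le (Nat.lt_succ_self _) (le_max_right _ _)
  refine ⟨fun k => U (φ k), ⟨fun k => h.one _, fun k k' hk => h.anti _ _ (hmono.monotone hk), fun k => h.inv _,
    fun k => h.conj _, ?_, fun k => h.bdd _⟩, ?_⟩
  · intro k u hu v hv
    rw [hs] at hu hv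
    exact hl (φ k) u (h.anti _ _ (le_max_left _ _) hu) v (h.anti _ _ (le_max_left _ _) hv)
  · intro x
    constructor
    · intro hx k
      exact h.anti _ _ (hmono.id_le k) (hx k)
    · intro hx k
      exact hx _

section

variable {G : Type} [Group G] {U : ℕ → Set G}

/-- sequences that are in `U k` almost everywhere -/
def Wk (U : ℕ → Set G) (k : ℕ) : Set (ℕ → G) := {f | ∀ᶠ n in (hyperfilter ℕ : Filter ℕ), f n ∈ U k}

variable (h : Nbh1 U)
include h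

theorem Wk_one (k : ℕ) : (1 : ℕ → G) ∈ Wk U k := Eventually.of_forall fun _ => h.one k

theorem Wk_anti {k l : ℕ} (hkl : k ≤ l) : Wk U l ⊆ Wk U k := fun _ hf =>
  Eventually.mono hf fun _ hn => h.anti k l hkl hn

theorem Wk_inv {k : ℕ} {f : ℕ → G} (hf : f ∈ Wk U k) : f⁻¹ ∈ Wk U k :=
  Eventually.mono hf fun _ hn => h.inv k _ hn

theorem Wk_conj {k : ℕ} {f : ℕ → G} (hf : f ∈ Wk U k) (g : ℕ → G) : g * f * g⁻¹ ∈ Wk U k :=
  Eventually.mono hf fun _ hn => h.conj k _ hn _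

theorem Wk_mul {k : ℕ} {f g : ℕ → G} (hf : f ∈ Wk U (k + 1)) (hg : g ∈ Wk U (k + 1)) : f * g ∈ Wk U k :=
  Eventually.mono (Eventually.and hf hg) fun _ hn => h.dbl k _ hn.1 _ hn.2

/-- the infinitesimal sequences -/
def Mg : Subgroup (ℕ → G) where
  carrier := {f | ∀ k, f ∈ Wk U k}
  one_mem' := fun k => Wk_one h k
  mul_mem' := fun hf hg k => Wk_mul h (hf (k + 1)) (hg (k + 1))
  inv_mem' := fun hf k => Wk_inv h (hf k)

theorem mem_Mg {f : ℕ → G} : f ∈ Mg h ↔ ∀ k, f ∈ Wk U k := Iff.rfl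

theorem Mg_normal : (Mg h).Normal := ⟨fun _ hf g k => Wk_conj h (hf k) g⟩

/-- the quotient -/
def HH : Type := by
  have := Mg_normal h
  exact (ℕ → G) ⧸ Mg h

noncomputable instance : Group (HH h) := by
  have := Mg_normal h
  unfold HH
  infer_instance

/-- the projection -/
noncomputable def pr : (ℕ → G) →* HH h := by
  have := Mg_normal h
  exact QuotientGroup.mk' (Mg h)

theorem pr_surj : Function.Surjective (pr h) := by
  have := Mg_normal h
  exact QuotientGroup.mk'_surjective (Mg h)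

theorem pr_eq_one {f : ℕ → G} : pr h f = 1 ↔ ∀ k, f ∈ Wk U k := by
  have := Mg_normal h
  have h1 : pr h f = 1 ↔ f ∈ Mg h := QuotientGroup.eq_one_iff f
  rw [h1]
  exact Iff.rfl

/-- neighbourhoods of the quotient -/
def Vk (k : ℕ) : Set (HH h) := pr h '' Wk U k

theorem mem_Vk {k : ℕ} {f : ℕ → G} (hf : f ∈ Wk U k) : pr h f ∈ Vk h k := ⟨f, hf, rfl⟩

theorem of_mem_Vk {k : ℕ} {f : ℕ → G} (hf : pr h f ∈ Vk h (k + 1)) : f ∈ Wk U k := by
  obtain ⟨f', hf', e⟩ := hf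
  have h1 : pr h (f'⁻¹ * f) = 1 := by rw [map_mul, map_inv, e, inv_mul_cancel]
  have h2 := (pr_eq_one h).1 h1 (k + 1)
  have h3 := Wk_mul h hf' h2
  rwa [mul_inv_cancel_left] at h3

theorem Vk_one (k : ℕ) : (1 : HH h) ∈ Vk h k := ⟨1, Wk_one h k, map_one _⟩

theorem Vk_anti {k l : ℕ} (hkl : k ≤ l) : Vk h l ⊆ Vk h k := Set.image_mono (Wk_anti h hkl)

theorem Vk_inv {k : ℕ} {x : HH h} (hx : x ∈ Vk h k) : x⁻¹ ∈ Vk h k := by
  obtain ⟨f, hf, rfl⟩ := hx
  exact ⟨f⁻¹, Wk_inv h hf, map_inv _ _⟩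

theorem Vk_mul {k : ℕ} {x y : HH h} (hx : x ∈ Vk h (k + 1)) (hy : y ∈ Vk h (k + 1)) : x * y ∈ Vk h k := by
  obtain ⟨f, hf, rfl⟩ := hx
  obtain ⟨g, hg, rfl⟩ := hy
  exact ⟨f * g, Wk_mul h hf hg, map_mul _ _ _⟩

theorem Vk_conj {k : ℕ} {x : HH h} (hx : x ∈ Vk h k) (y : HH h) : y * x * y⁻¹ ∈ Vk h k := by
  obtain ⟨f, hf, rfl⟩ := hx
  obtain ⟨g, rfl⟩ := pr_surj h y
  exact ⟨g * f * g⁻¹, Wk_conj h hf g, by rw [map_mul, map_mul, map_inv]⟩

theorem Vk_inter {x : HH h} (hx : ∀ k, x ∈ Vk h k) : x = 1 := by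
  obtain ⟨f, rfl⟩ := pr_surj h x
  rw [pr_eq_one]
  exact fun k => of_mem_Vk h (hx (k + 1))

/-- cliques are bounded in the quotient -/
theorem Vk_bdd (k : ℕ) : ∃ m, ∀ c : Fin m → HH h, ∃ i j, i ≠ j ∧ (c i)⁻¹ * c j ∈ Vk h k := by
  obtain ⟨m, hm⟩ := h.bdd k
  refine ⟨m, fun c => ?_⟩
  by_contra hcon
  push Not at hcon
  choose f hf using fun i => pr_surj h (c i)
  have h1 : ∀ i j, i ≠ j → ∀ᶠ n in (hyperfilter ℕ : Filter ℕ), (f i n)⁻¹ * f j n ∉ U k := by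
    intro i j hij
    have h2 : (f i)⁻¹ * f j ∉ Wk U k := by
      intro h3
      apply hcon i j hij
      have h4 := mem_Vk h h3
      rwa [map_mul, map_inv, hf, hf] at h4
    have h5 : ¬ ∀ᶠ n in (hyperfilter ℕ : Filter ℕ), (f i n)⁻¹ * f j n ∈ U k := h2
    exact (Ultrafilter.eventually_not).2 h5
  have h6 : ∀ᶠ n in (hyperfilter ℕ : Filter ℕ), ∀ i j, i ≠ j → (f i n)⁻¹ * f j n ∉ U k := by
    rw [eventually_all]
    intro i
    rw [eventually_all]
    intro j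
    by_cases hij : i = j
    · exact Eventually.of_forall fun _ h' => absurd hij h'
    · exact (h1 i j hij).mono fun _ hn _ => hn
  obtain ⟨n, hn⟩ := h6.exists
  obtain ⟨i, j, hij, h7⟩ := hm fun i => f i n
  exact hn i j hij h7

/-- finitely many translates cover -/
theorem Vk_cover (k : ℕ) : ∃ S : Finset (HH h), ∀ x, ∃ s ∈ S, s⁻¹ * x ∈ Vk h k := by
  by_contra hcon
  push Not at hcon
  obtain ⟨m, hm⟩ := Vk_bdd h k
  obtain ⟨f, -, hf⟩ := exists_seq_of_forall_finset_exists (fun _ : HH h => True)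
    (fun s x => s⁻¹ * x ∉ Vk h k) (fun s _ => by
      obtain ⟨x, hx⟩ := hcon s
      exact ⟨x, trivial, hx⟩)
  obtain ⟨i, j, hij, h1⟩ := hm fun i => f i
  rcases lt_or_gt_of_ne hij with h2 | h2
  · exact hf _ _ h2 h1
  · apply hf _ _ h2
    have h3 := Vk_inv h h1
    rwa [mul_inv_rev, inv_inv] at h3

/-- diagonal sequences -/
theorem exists_diag (f : ℕ → ℕ → G) (hf : ∀ i j, i ≤ j → (f i)⁻¹ * f j ∈ Wk U i) :
    ∃ g : ℕ → G, ∀ i, (f i)⁻¹ * g ∈ Wk U i := by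
  classical
  let P : ℕ → ℕ → Prop := fun n j => ∀ i i', i ≤ i' → i' ≤ j → (f i n)⁻¹ * f i' n ∈ U i
  have hP0 : ∀ n, P n 0 := by
    intro n i i' hi hi'
    obtain rfl : i' = 0 := by omega
    obtain rfl : i = 0 := by omega
    rw [inv_mul_cancel]
    exact h.one 0
  refine ⟨fun n => f (Nat.findGreatest (P n) n) n, fun i => ?_⟩
  have h1 : ∀ᶠ n in (hyperfilter ℕ : Filter ℕ), P n i := by
    have h2 : ∀ᶠ n in (hyperfilter ℕ : Filter ℕ), ∀ j ∈ Finset.range (i + 1), ∀ j' ∈ Finset.range (i + 1),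
        j ≤ j' → (f j n)⁻¹ * f j' n ∈ U j := by
      rw [Filter.eventually_all_finset]
      intro j _
      rw [Filter.eventually_all_finset]
      intro j' _
      by_cases hj : j ≤ j'
      · exact (hf j j' hj).mono fun _ hn _ => hn
      · exact Eventually.of_forall fun _ h' => absurd h' hj
    refine h2.mono fun n hn j j' hj hj' => ?_
    exact hn j (Finset.mem_range.2 (by omega)) j' (Finset.mem_range.2 (by omega)) hj
  have h3 : ∀ᶠ n in (hyperfilter ℕ : Filter ℕ), i ≤ n := by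
    have h4 : ∀ᶠ n in (cofinite : Filter ℕ), i ≤ n := by
      rw [Nat.cofinite_eq_atTop]
      exact eventually_ge_atTop i
    exact hyperfilter_le_cofinite h4
  show ∀ᶠ n in (hyperfilter ℕ : Filter ℕ), (f i n)⁻¹ * f (Nat.findGreatest (P n) n) n ∈ U i
  refine (h1.and h3).mono fun n hn => ?_
  have h5 : i ≤ Nat.findGreatest (P n) n := Nat.le_findGreatest hn.2 hn.1
  have h6 : P n (Nat.findGreatest (P n) n) := Nat.findGreatest_spec (Nat.zero_le n) (hP0 n)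
  exact h6 i _ h5 le_rfl

/-- the filter basis -/
@[instance_reducible]
noncomputable def basis : GroupFilterBasis (HH h) where
  sets := Set.range (Vk h)
  nonempty := ⟨Vk h 0, 0, rfl⟩
  inter_sets := by
    rintro _ _ ⟨k, rfl⟩ ⟨l, rfl⟩
    exact ⟨Vk h (max k l), ⟨_, rfl⟩, Set.subset_inter (Vk_anti h (le_max_left _ _)) (Vk_anti h (le_max_right _ _))⟩
  one' := by
    rintro _ ⟨k, rfl⟩
    exact Vk_one h k
  mul' := by
    rintro _ ⟨k, rfl⟩
    refine ⟨Vk h (k + 1), ⟨_, rfl⟩, ?_⟩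
    rintro _ ⟨x, hx, y, hy, rfl⟩
    exact Vk_mul h hx hy
  inv' := by
    rintro _ ⟨k, rfl⟩
    exact ⟨Vk h k, ⟨_, rfl⟩, fun x hx => Vk_inv h hx⟩
  conj' := by
    rintro y _ ⟨k, rfl⟩
    exact ⟨Vk h k, ⟨_, rfl⟩, fun x hx => Vk_conj h hx y⟩

/-- **the quotient is a compact Hausdorff group** -/
theorem compact_HH : ∃ t : TopologicalSpace (HH h), @IsTopologicalGroup (HH h) t _ ∧ @CompactSpace (HH h) t ∧
    @T2Space (HH h) t := by
  refine ⟨(basis h).topology, GroupFilterBasis.isTopologicalGroup _, ?_, ?_⟩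
  · let t := (basis h).topology
    constructor
    rw [isCompact_iff_ultrafilter_le_nhds]
    intro F _
    have h1 : ∀ k, ∃ x : HH h, {y | x⁻¹ * y ∈ Vk h k} ∈ F := by
      intro k
      obtain ⟨S, hS⟩ := Vk_cover h k
      have h2 : (⋃ x ∈ (S : Set (HH h)), {y | x⁻¹ * y ∈ Vk h k}) ∈ F := by
        have h3 : (⋃ x ∈ (S : Set (HH h)), {y | x⁻¹ * y ∈ Vk h k}) = Set.univ := by
          rw [Set.eq_univ_iff_forall]
          intro y
          obtain ⟨s, hs, h4⟩ := hS y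
          simp only [Set.mem_iUnion]
          exact ⟨s, hs, h4⟩
        rw [h3]
        exact Filter.univ_mem
      rw [Ultrafilter.finite_biUnion_mem_iff S.finite_toSet] at h2
      obtain ⟨x, -, hx⟩ := h2
      exact ⟨x, hx⟩
    choose x hx using fun k => h1 (k + 2)
    choose f hf using fun k => pr_surj h (x k)
    have h2 : ∀ i j, i ≤ j → (f i)⁻¹ * f j ∈ Wk U i := by
      intro i j hij
      obtain ⟨y, hy1, hy2⟩ := F.nonempty_of_mem (Filter.inter_mem (hx i) (hx j))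
      apply of_mem_Vk h
      rw [map_mul, map_inv, hf, hf]
      have h3 : (x i)⁻¹ * x j = ((x i)⁻¹ * y) * ((x j)⁻¹ * y)⁻¹ := by group
      rw [h3]
      exact Vk_mul h hy1 (Vk_inv h (Vk_anti h (by omega) hy2))
    obtain ⟨g, hg⟩ := exists_diag h f h2
    refine ⟨pr h g, Set.mem_univ _, ?_⟩
    rw [((basis h).nhds_hasBasis (pr h g)).ge_iff]
    rintro _ ⟨k, rfl⟩
    refine Filter.mem_of_superset (hx (k + 1)) ?_
    intro y hy
    refine ⟨(pr h g)⁻¹ * y, ?_, by show pr h g * ((pr h g)⁻¹ * y) = y; group⟩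
    have h3 : (x (k + 1))⁻¹ * pr h g ∈ Vk h (k + 1) := by
      have h4 := mem_Vk h (hg (k + 1))
      rwa [map_mul, map_inv, hf] at h4
    have h5 : (pr h g)⁻¹ * y = ((x (k + 1))⁻¹ * pr h g)⁻¹ * ((x (k + 1))⁻¹ * y) := by group
    rw [h5]
    exact Vk_mul h (Vk_inv h h3) (Vk_anti h (by omega) hy)
  · let t := (basis h).topology
    rw [(basis h).t2Space_iff rfl]
    ext y
    rw [Set.mem_sInter, Set.mem_singleton_iff]
    constructor
    · intro hy
      exact Vk_inter h fun k => hy _ ⟨k, rfl⟩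
    · rintro rfl
      rintro _ ⟨k, rfl⟩
      exact Vk_one h k

end

/-- **(T).** -/
theorem exists_compact {G : Type} [Group G] {U : ℕ → Set G} (h : Nbh U) :
    ∃ (H : Type) (_ : Group H) (_ : TopologicalSpace H) (_ : IsTopologicalGroup H) (_ : CompactSpace H)
      (_ : T2Space H) (π : (ℕ → G) →* H), Function.Surjective π ∧
      ∀ x : G, π (fun _ => x) = 1 ↔ ∀ k, x ∈ U k := by
  obtain ⟨V, hV, hVU⟩ := h.exists_sub
  obtain ⟨t, h1, h2, h3⟩ := compact_HH hV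
  refine ⟨HH hV, inferInstance, t, h1, h2, h3, pr hV, pr_surj hV, fun x => ?_⟩
  rw [pr_eq_one, ← hVU]
  constructor
  · intro hx k
    have h4 : ∀ᶠ n in (hyperfilter ℕ : Filter ℕ), x ∈ V k := hx k
    obtain ⟨n, hn⟩ := h4.exists
    exact hn
  · intro hx k
    exact Eventually.of_forall fun _ => hx k

end Pool.Agent.helper31.CPT
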