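import Pool.Agent.helper31.CPT.Top
import Pool.Agent.helper80.RSV.Base

set_option autoImplicit false

/-!
# Compact groups in a residually small variety (MP_3c1c82), module (T)
-/

namespace Pool.Agent.helper31.CPT

open Pool.Agent.helper80.RSV

section

variable {G : Type} [Group G]

theorem one_of_Ncl_one {k : ℕ} {x : G} (hx : x ∈ Ncl k (1 : G)) : x = 1 := by
  induction k generalizing x with
  | zero => exact hx
  | succ k ih =>
    obtain ⟨y, ⟨g, h, hy⟩, z, hz, rfl⟩ := hx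
    rw [ih hz, hy]
    group

theorem Kc_inv_eq' {y x : G} (hx : x ∈ Kc y⁻¹) : x ∈ Kc y := by
  obtain ⟨g, h, rfl⟩ := hx
  have h1 : h * (y⁻¹⁻¹ * (g * y⁻¹ * g⁻¹)) * h⁻¹ = h * (y * g * y⁻¹ * g⁻¹) * h⁻¹ := by group
  rw [h1]
  exact Kc_conj (comm_mem_Kc' y g) h

theorem Ncl_inv_eq' {k : ℕ} {y x : G} (hx : x ∈ Ncl k y⁻¹) : x ∈ Ncl k y := by
  induction k generalizing x with
  | zero => exact hx
  | succ k ih =>
    obtain ⟨u, hu, v, hv, rfl⟩ := hx
    exact ⟨u, Kc_inv_eq' hu, v, ih hv, rfl⟩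

/-- the sets `{y | a ∉ Ncl k y}` -/
theorem nbh_of {W : Set (FreeGroup ℕ)} (hB : Bdd W) (hG : Sat W G) {a : G} (ha : a ≠ 1)
    (hD : ∀ k, ∃ l, ∀ u v : G, a ∉ Ncl l u → a ∉ Ncl l v → a ∉ Ncl k (u * v)) :
    Nbh (fun k => {y : G | a ∉ Ncl k y}) where
  one := fun k hk => ha (one_of_Ncl_one hk)
  anti := fun k l hkl y hy hy' => hy (Ncl_mono hkl hy')
  inv := fun k y hy hy' => hy (Ncl_inv_eq' hy')
  conj := fun k y hy g hy' => by
    rw [Ncl_of_conj] at hy'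
    exact hy hy'
  dbl := fun k => by
    obtain ⟨l, hl⟩ := hD k
    exact ⟨l, fun u hu v hv => hl u v hu hv⟩
  bdd := fun k => by
    obtain ⟨m, hm⟩ := hB k
    exact ⟨m, fun c => hm G hG a ha c⟩

/-- the normal subgroup generated by the commutators of `x` -/
def NclS (x : G) : Subgroup G where
  carrier := {y | ∃ k, y ∈ Ncl k x}
  one_mem' := ⟨0, one_mem_Ncl 0 x⟩
  mul_mem' := by
    rintro y z ⟨k, hk⟩ ⟨l, hl⟩
    exact ⟨k + l, Ncl_mul hk hl⟩
  inv_mem' := by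
    rintro y ⟨k, hk⟩
    exact ⟨k, Ncl_inv hk⟩

theorem NclS_normal (x : G) : (NclS x).Normal := by
  refine ⟨?_⟩
  rintro y ⟨k, hk⟩ g
  exact ⟨k, Ncl_conj hk g⟩

theorem NclS_bot {x : G} (h : NclS x = ⊥) (g : G) : g * x = x * g := by
  have h1 : x⁻¹ * (g * x * g⁻¹) ∈ NclS x := ⟨1, Kc_sub_Ncl_one (comm_mem_Kc x g)⟩
  rw [h, Subgroup.mem_bot] at h1
  calc g * x = x * (x⁻¹ * (g * x * g⁻¹)) * g := by group
    _ = x * g := by rw [h1, mul_one]

end

/-- **(T) in a residually small variety.** -/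
theorem exists_compact_group {W : Set (FreeGroup ℕ)} (hB : Bdd W) {G : Type} [Group G] (hG : Sat W G) {a : G}
    (ha : a ≠ 1) (hD : ∀ k, ∃ l, ∀ u v : G, a ∉ Ncl l u → a ∉ Ncl l v → a ∉ Ncl k (u * v)) :
    ∃ (H : Type) (_ : Group H) (_ : TopologicalSpace H) (_ : IsTopologicalGroup H) (_ : CompactSpace H)
      (_ : T2Space H) (ι : G →* H), Sat W H ∧ ∀ x : G, ι x = 1 ↔ ∀ k, a ∉ Ncl k x := by
  obtain ⟨H, i1, i2, i3, i4, i5, π, hπ, hx⟩ := exists_compact (nbh_of hB hG ha hD)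
  let j : G →* (ℕ → G) := MonoidHom.mk' (fun x _ => x) (fun _ _ => rfl)
  exact ⟨H, i1, i2, i3, i4, i5, π.comp j, (Sat.pi (fun _ => hG)).of_surjective π hπ, fun x => hx x⟩

/-- the same, with an injective map if the centre is trivial and `a` is in every nontrivial normal subgroup -/
theorem exists_compact_group' {W : Set (FreeGroup ℕ)} (hB : Bdd W) {G : Type} [Group G] (hG : Sat W G) {a : G}
    (ha : a ≠ 1) (hasi : ∀ N : Subgroup G, N.Normal → N ≠ ⊥ → a ∈ N)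
    (hZ : ∀ x : G, (∀ g, g * x = x * g) → x = 1)
    (hD : ∀ k, ∃ l, ∀ u v : G, a ∉ Ncl l u → a ∉ Ncl l v → a ∉ Ncl k (u * v)) :
    ∃ (H : Type) (_ : Group H) (_ : TopologicalSpace H) (_ : IsTopologicalGroup H) (_ : CompactSpace H)
      (_ : T2Space H) (ι : G →* H), Sat W H ∧ Function.Injective ι := by
  obtain ⟨H, i1, i2, i3, i4, i5, ι, hS, hι⟩ := exists_compact_group hB hG ha hD
  refine ⟨H, i1, i2, i3, i4, i5, ι, hS, ?_⟩
  rw [injective_iff_map_eq_one]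
  intro x hx
  rw [hι] at hx
  apply hZ
  apply NclS_bot
  by_contra hne
  obtain ⟨k, hk⟩ := hasi _ (NclS_normal x) hne
  exact hx k hk

end Pool.Agent.helper31.CPT
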